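import Mathlib
import Pool.Agent.Work.MP_947208_co.Simple
import Pool.Agent.Work.MP_947208_co.Tri

/-!
# The number of Hamiltonian decompositions

A graph (or loopless multigraph with at least three vertices) whose edges are partitioned into `k`
Hamiltonian cycles has at least `(k!)²` Hamiltonian decompositions; the `k`-fold triangle has
exactly `(k!)²`.
-/

set_option autoImplicit false

namespace Pool.Agent.Results.MP_947208_co.FactorialSquare

open _root_.MP_947208_co

/-- Every Hamiltonian decomposition into `k` cycles of a finite simple graph, or of a finite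
loopless multigraph on at least three vertices, is one of at least `(k!)²`; the `k`-fold triangle
shows that this is best possible for every `k`. -/
theorem result :
    (∀ (V : Type) [Fintype V] [DecidableEq V] (G : SimpleGraph V) [DecidableRel G.Adj]
      (D : Finset (Finset (Sym2 V))), SDec G D →
        D.card.factorial ^ 2 ≤ {D' : Finset (Finset (Sym2 V)) | SDec G D'}.ncard) ∧
    (∀ (V E : Type) [Fintype V] [DecidableEq V] [Fintype E] [DecidableEq E] (ends : E → Sym2 V),
      3 ≤ Fintype.card V → (∀ e, ¬ (ends e).IsDiag) →
      ∀ D : Finset (Finset E), IsDec ends Finset.univ D →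
        D.card.factorial ^ 2 ≤ {D' : Finset (Finset E) | IsDec ends Finset.univ D'}.ncard) ∧
    (∀ k : ℕ, (∃ D : Finset (Finset (Fin 3 × Fin k)), IsDec (tri k) Finset.univ D ∧ D.card = k) ∧
      {D' : Finset (Finset (Fin 3 × Fin k)) | IsDec (tri k) Finset.univ D'}.ncard =
        k.factorial ^ 2) := by
  classical
  refine ⟨fun V _ _ G _ D hD => simple_bound G D hD, ?_, ?_⟩
  · intro V E _ _ _ _ ends hn hl D hD
    have h1 := fact_sq_le hn D.card Finset.univ D (fun e _ => hl e) hD rfl
    have h2 : {D' : Finset (Finset E) | IsDec ends Finset.univ D'} =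
        ((Decs ends Finset.univ : Finset _) : Set _) := by
      ext D'
      rw [Set.mem_setOf_eq, Finset.mem_coe, mem_Decs]
    rw [h2, Set.ncard_coe_finset]
    exact h1
  · intro k
    refine ⟨⟨mkD 1, isDec_mkD 1, card_mkD 1⟩, ?_⟩
    have h2 : {D' : Finset (Finset (Fin 3 × Fin k)) | IsDec (tri k) Finset.univ D'} =
        ((Decs (tri k) Finset.univ : Finset _) : Set _) := by
      ext D'
      rw [Set.mem_setOf_eq, Finset.mem_coe, mem_Decs]
    rw [h2, Set.ncard_coe_finset]
    exact card_tri k

end Pool.Agent.Results.MP_947208_co.FactorialSquare
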