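import Mathlib
import Pool.Agent.Work.MP_947208_co.LocFin

/-!
# The minimum number of Hamiltonian decompositions with the same pairings at `j` vertices

If the edges of a graph (or loopless multigraph on at least `j + 2` vertices) are partitioned into
`k` Hamiltonian cycles and `J` is a set of `j ≥ 1` vertices, then at least
`∏_{l < k} (⌊l / 2 ^ (j - 1)⌋ + 1)` Hamiltonian decompositions induce the same pairings of the edges
at the vertices of `J` (`k!` for `j = 1`, and at least two if `2 ^ (j - 1) < k`); for multigraphs
this is best possible for all `j` and `k`.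
-/

set_option autoImplicit false

namespace Pool.Agent.Results.MP_947208_co.LocalMinimum

open _root_.MP_947208_co

/-- For every Hamiltonian decomposition `D` into `k` cycles and every set `J` of `j ≥ 1` vertices
at least `∏_{l < k} (⌊l / 2 ^ (j - 1)⌋ + 1)` Hamiltonian decompositions have the same pairings as
`D` at all vertices of `J`; for all `j ≥ 1` and `k` equality holds for some multigraph. -/
theorem result :
    (∀ (V E : Type) [Fintype V] [DecidableEq V] [Fintype E] [DecidableEq E] (ends : E → Sym2 V)
      (D : Finset (Finset E)) (J : Finset V), (∀ e, ¬ (ends e).IsDiag) →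
      IsDec ends Finset.univ D → J.Nonempty → J.card + 2 ≤ Fintype.card V →
      ∏ l ∈ Finset.range D.card, (l / 2 ^ (J.card - 1) + 1) ≤
        {D' : Finset (Finset E) | IsDec ends Finset.univ D' ∧
          ∀ v ∈ J, pairsAt ends D' v = pairsAt ends D v}.ncard) ∧
    (∀ (V : Type) [Fintype V] [DecidableEq V] (G : SimpleGraph V) [DecidableRel G.Adj]
      (D : Finset (Finset (Sym2 V))) (J : Finset V), SDec G D → J.Nonempty →
      ∏ l ∈ Finset.range D.card, (l / 2 ^ (J.card - 1) + 1) ≤
        {D' : Finset (Finset (Sym2 V)) | SDec G D' ∧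
          ∀ v ∈ J, pairsAt id D' v = pairsAt id D v}.ncard) ∧
    (∀ j k : ℕ, 1 ≤ j →
      ∃ (ends : Fin k × Fin (j + 2) → Sym2 (Fin (j + 2))) (J : Finset (Fin (j + 2)))
        (D : Finset (Finset (Fin k × Fin (j + 2)))), (∀ e, ¬ (ends e).IsDiag) ∧
        J.card = j ∧ IsDec ends Finset.univ D ∧ D.card = k ∧
        {D' : Finset (Finset (Fin k × Fin (j + 2))) | IsDec ends Finset.univ D' ∧
          ∀ v ∈ J, pairsAt ends D' v = pairsAt ends D v}.ncard =
            ∏ l ∈ Finset.range k, (l / 2 ^ (j - 1) + 1)) := by
  classical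
  refine ⟨?_, ?_, ?_⟩
  · intro V E _ _ _ _ ends D J hl hD hJ hV
    exact Par.local_min_set (fun e _ => hl e) hJ hV hD
  · intro V _ _ G _ D J hD hJ
    exact Par.local_min_simple G hJ hD
  · intro j k hj
    exact Par.local_exact j k hj

end Pool.Agent.Results.MP_947208_co.LocalMinimum
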