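import Mathlib
import Pool.Agent.Work.MP_947208_co.TrFin

/-!
# Parity of the number of Hamiltonian decompositions with conditions at several vertices

In a `2k`-regular loopless multigraph or simple graph let `J` be a set of `j ≥ 1` vertices and `T`
a set of `t` pairs of adjacent edges. If `2 ^ (j - 1) + t < k`, then every property of the pairings
of the edges at the vertices of `J` and of the set of those pairs of `T` which lie in a common
cycle holds for an even number of Hamiltonian decompositions. In particular, every path with at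
most `k` edges lies in a cycle of an even number of Hamiltonian decompositions. Without `T` the
condition `2 ^ (j - 1) < k` is best possible for every `j`.
-/

set_option autoImplicit false

namespace Pool.Agent.Results.MP_947208_co.ParityTransitions

open _root_.MP_947208_co

/-- Every property of the pairings at `j` vertices and of the use of `t` pairs of adjacent edges
holds for an even number of Hamiltonian decompositions of a `2k`-regular graph if
`2 ^ (j - 1) + t < k`; every path with at most `k` edges is in a cycle of an even number of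
Hamiltonian decompositions; if `k ≤ 2 ^ (j - 1)`, then some `2k`-regular multigraph on `j + 2`
vertices has a decomposition determined by its pairings at `j` vertices. -/
theorem result :
    (∀ (V E : Type) [Fintype V] [DecidableEq V] [Fintype E] [DecidableEq E] (ends : E → Sym2 V)
      (k : ℕ) (J : Finset V) (T : Finset (V × E × E)), (∀ e, ¬ (ends e).IsDiag) →
      (∀ v, deg ends Finset.univ v = 2 * k) → J.Nonempty →
      (∀ t ∈ T, t.2.1 ≠ t.2.2 ∧ t.1 ∈ ends t.2.1 ∧ t.1 ∈ ends t.2.2) →
      (J ∪ T.image Prod.fst).card + 2 ≤ Fintype.card V → 2 ^ (J.card - 1) + T.card < k →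
      ∀ Q : (J → Finset (Finset E)) → Finset (V × E × E) → Prop,
        Even {D : Finset (Finset E) | IsDec ends Finset.univ D ∧
          Q (fun v => pairsAt ends D v) (usedIn D T)}.ncard) ∧
    (∀ (V : Type) [Fintype V] [DecidableEq V] (G : SimpleGraph V) [DecidableRel G.Adj] (k : ℕ)
      (J : Finset V) (T : Finset (V × Sym2 V × Sym2 V)), G.IsRegularOfDegree (2 * k) →
      J.Nonempty → (∀ t ∈ T, t.2.1 ≠ t.2.2 ∧ t.1 ∈ t.2.1 ∧ t.1 ∈ t.2.2) →
      2 ^ (J.card - 1) + T.card < k →
      ∀ Q : (J → Finset (Finset (Sym2 V))) → Finset (V × Sym2 V × Sym2 V) → Prop,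
        Even {D : Finset (Finset (Sym2 V)) | SDec G D ∧
          Q (fun v => pairsAt id D v) (usedIn D T)}.ncard) ∧
    (∀ (V : Type) [Fintype V] [DecidableEq V] (G : SimpleGraph V) [DecidableRel G.Adj] (k : ℕ)
      (a b : V) (p : G.Walk a b), G.IsRegularOfDegree (2 * k) → 2 ≤ k → p.IsPath →
      p.length ≤ k →
        Even {D : Finset (Finset (Sym2 V)) | SDec G D ∧
          ∃ C ∈ D, ∀ e ∈ p.edges, e ∈ C}.ncard) ∧
    (∀ j k : ℕ, 1 ≤ j → k ≤ 2 ^ (j - 1) →
      ∃ (ends : Fin k × Fin (j + 2) → Sym2 (Fin (j + 2))) (J : Finset (Fin (j + 2)))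
        (D : Finset (Finset (Fin k × Fin (j + 2)))), (∀ e, ¬ (ends e).IsDiag) ∧
        (∀ v, deg ends Finset.univ v = 2 * k) ∧ J.card = j ∧ IsDec ends Finset.univ D ∧
        ∀ D', IsDec ends Finset.univ D' →
          (∀ v ∈ J, pairsAt ends D' v = pairsAt ends D v) → D' = D) := by
  classical
  refine ⟨?_, ?_, ?_, ?_⟩
  · intro V E _ _ _ _ ends k J T hl hdeg hJ hT hV hk Q
    exact Par.even_propT (fun e _ => hl e) hJ hV hk hdeg hT Q
  · intro V _ _ G _ k J T hG hJ hT hk Q
    exact Par.even_simpleT G hJ hk hG hT Q
  · intro V _ _ G _ k a b p hG hk hp hpk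
    exact Par.even_walk G hk hG p hp hpk
  · intro j k hj hk
    exact Par.sharp j k hj hk

end Pool.Agent.Results.MP_947208_co.ParityTransitions
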