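import Mathlib
import Pool.Agent.Work.MP_947208_co.Two6
import Pool.Agent.Work.MP_947208_co.FourFin

/-!
# Powers of two dividing the number of Hamiltonian decompositions

Let `G` be a `2k`-regular loopless multigraph on `n ≥ 4` vertices, or a `2k`-regular simple graph.
The number of Hamiltonian decompositions of `G` whose pairing of the edges at a given vertex has a
given property is divisible by `2 ^ (k - 1)`. If `k` is even and `n` is `0` or `3` modulo `4`, then
the number of all Hamiltonian decompositions is divisible by `2 ^ k`.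
-/

set_option autoImplicit false

namespace Pool.Agent.Results.MP_947208_co.TwoAdic

open _root_.MP_947208_co

/-- `2 ^ (k - 1)` divides the number of Hamiltonian decompositions with any property of the pairing
at one vertex (`n ≥ 4`); `2 ^ k` divides the number of all Hamiltonian decompositions if `k` is
even and `n` is `0` or `3` modulo `4`. -/
theorem result :
    (∀ (V E : Type) [Fintype V] [DecidableEq V] [Fintype E] [DecidableEq E] (ends : E → Sym2 V)
      (k : ℕ), (∀ e, ¬ (ends e).IsDiag) → (∀ v, deg ends Finset.univ v = 2 * k) →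
      (4 ≤ Fintype.card V → ∀ (u : V) (Q : Finset (Finset E) → Prop),
        2 ^ (k - 1) ∣ {D : Finset (Finset E) | IsDec ends Finset.univ D ∧
          Q (pairsAt ends D u)}.ncard) ∧
      (3 ≤ Fintype.card V → Fintype.card V % 4 = 0 ∨ Fintype.card V % 4 = 3 → Even k →
        2 ^ k ∣ {D : Finset (Finset E) | IsDec ends Finset.univ D}.ncard)) ∧
    (∀ (V : Type) [Fintype V] [DecidableEq V] [Nonempty V] (G : SimpleGraph V)
      [DecidableRel G.Adj] (k : ℕ), G.IsRegularOfDegree (2 * k) →
      (∀ (u : V) (Q : Finset (Finset (Sym2 V)) → Prop),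
        2 ^ (k - 1) ∣ {D : Finset (Finset (Sym2 V)) | SDec G D ∧
          Q (pairsAt id D u)}.ncard) ∧
      (Fintype.card V % 4 = 0 ∨ Fintype.card V % 4 = 3 → Even k →
        2 ^ k ∣ {D : Finset (Finset (Sym2 V)) | SDec G D}.ncard)) := by
  classical
  refine ⟨?_, ?_⟩
  · intro V E _ _ _ _ ends k hl hdeg
    refine ⟨?_, ?_⟩
    · intro hV u Q
      exact Two.dvd_prop (fun e _ => hl e) u hV hdeg Q
    · intro h3 hn hk
      exact two_pow_dvd_decs h3 hn hk Finset.univ (fun e _ => hl e) hdeg
  · intro V _ _ _ G _ k hG
    refine ⟨?_, ?_⟩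
    · intro u Q
      exact Two.dvd_simple G u hG Q
    · intro hn hk
      exact two_pow_dvd_simple G hn hk hG

end Pool.Agent.Results.MP_947208_co.TwoAdic
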